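import Mathlib

/-!
# Unions of Schubert varieties in `(ℙ¹)⁴ = G/B`, `G = SL₂(ℂ)⁴`, and their deformations

Everything is expressed with Mathlib's schemes. `P1` is the projective line over `ℂ` (Mathlib's
`Proj` of `ℂ[X₀, X₁]`), `Y = P1 × P1 × P1 × P1` (fibre products over `Spec ℂ`).

For `G = SL₂⁴` and `B` = (lower triangular matrices)⁴, `G/B = (ℙ¹)⁴`, the Weyl group is
`(ℤ/2)⁴`, identified with the set of subsets `F` of `{0,1,2,3}`, and the Schubert variety of `F`
is `X_F = {x : x_i = o for all i ∉ F}`, `o = [0 : 1]` the `B`-fixed point of `ℙ¹`.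
-/

open CategoryTheory Limits AlgebraicGeometry TopologicalSpace

noncomputable section

namespace Pool.Agent.J4H14.SV

/-- The ring `ℂ[X₀, X₁]` with its standard grading. -/
abbrev HS : ℕ → Submodule ℂ (MvPolynomial (Fin 2) ℂ) :=
  MvPolynomial.homogeneousSubmodule (Fin 2) ℂ

/-- Mathlib's grading of the polynomial ring by degree. -/
instance : GradedAlgebra HS := MvPolynomial.gradedAlgebra

/-- The projective line over `ℂ`, as Mathlib's `Proj ℂ[X₀, X₁]`. -/
abbrev P1 : Scheme.{0} := Proj HS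

/-- `Spec ℂ`. -/
abbrev SC : Scheme.{0} := Spec (CommRingCat.of ℂ)

/-- The structure morphism `ℙ¹ ⟶ Spec ℂ`. -/
def P1str : P1 ⟶ SC :=
  Proj.toSpecZero HS ≫ Spec.map (CommRingCat.ofHom (algebraMap ℂ (HS 0)))

/-- The base point `o = [0 : 1]` of `ℙ¹` as the closed subset `V₊(X₀)`. -/
def baseLocus : Set P1 :=
  {x | MvPolynomial.X 0 ∈ (show ProjectiveSpectrum HS from x).asHomogeneousIdeal}

/-- `ℙ¹ ×_ℂ ℙ¹`. -/
abbrev PP : Scheme.{0} := pullback P1str P1str

/-- Its structure morphism. -/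
abbrev PPstr : PP ⟶ SC := pullback.fst P1str P1str ≫ P1str

/-- `Y = (ℙ¹)⁴ = G/B` for `G = SL₂⁴`. -/
abbrev Y : Scheme.{0} := pullback PPstr PPstr

/-- Its structure morphism. -/
abbrev Ystr : Y ⟶ SC := pullback.fst PPstr PPstr ≫ PPstr

/-- The four coordinate projections `Y ⟶ ℙ¹`. -/
def pr : Fin 4 → (Y ⟶ P1) :=
  ![pullback.fst PPstr PPstr ≫ pullback.fst P1str P1str,
    pullback.fst PPstr PPstr ≫ pullback.snd P1str P1str,
    pullback.snd PPstr PPstr ≫ pullback.fst P1str P1str,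
    pullback.snd PPstr PPstr ≫ pullback.snd P1str P1str]

/-- The Schubert variety `X_F = {x ∈ (ℙ¹)⁴ : x_i = o for all i ∉ F}`, as a set. -/
def schubertSet (F : Finset (Fin 4)) : Set Y :=
  {y | ∀ i, i ∉ F → pr i y ∈ baseLocus}

/-- The union `⋃_{F ∈ S} X_F`, as a set. -/
def unionSet (S : Finset (Finset (Fin 4))) : Set Y := {y | ∃ F ∈ S, y ∈ schubertSet F}

/-- The basic open set `D₊(X₀)` of `ℙ¹`. -/
def baseCompl : P1.Opens := Proj.basicOpen HS (MvPolynomial.X 0)

lemma mem_baseCompl (x : P1) : x ∈ baseCompl ↔ x ∉ baseLocus := Iff.rfl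

lemma isClosed_baseLocus : IsClosed baseLocus := by
  have h : baseLocus = (baseCompl : Set P1)ᶜ := by
    ext x
    simp only [Set.mem_compl_iff, SetLike.mem_coe, mem_baseCompl, not_not]
  rw [h]
  exact baseCompl.isOpen.isClosed_compl

lemma isClosed_schubertSet (F : Finset (Fin 4)) : IsClosed (schubertSet F) := by
  have h : schubertSet F = ⋂ i, ⋂ (_ : i ∉ F), (pr i) ⁻¹' baseLocus := by
    ext y
    simp [schubertSet]
  rw [h]
  exact isClosed_iInter fun i => isClosed_iInter fun _ =>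
    isClosed_baseLocus.preimage (pr i).continuous

lemma isClosed_unionSet (S : Finset (Finset (Fin 4))) : IsClosed (unionSet S) := by
  have h : unionSet S = ⋃ F ∈ S, schubertSet F := by
    ext y
    simp [unionSet]
  rw [h]
  exact S.finite_toSet.isClosed_biUnion fun F _ => isClosed_schubertSet F

/-- `X_S = ⋃_{F ∈ S} X_F` with its reduced scheme structure, as a closed subscheme of `Y`. -/
abbrev XS (S : Finset (Finset (Fin 4))) : Scheme.{0} :=
  (Scheme.IdealSheafData.vanishingIdeal ⟨unionSet S, isClosed_unionSet S⟩).subscheme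

/-- The inclusion `X_S ⟶ Y`. -/
abbrev XSι (S : Finset (Finset (Fin 4))) : XS S ⟶ Y :=
  (Scheme.IdealSheafData.vanishingIdeal ⟨unionSet S, isClosed_unionSet S⟩).subschemeι

/-- A (Noetherian) local ring `R` is Cohen-Macaulay: there is an `R`-regular sequence (of elements
of the maximal ideal) whose length is the Krull dimension of `R`. -/
def IsCMLocalRing (R : Type) [CommRing R] : Prop :=
  ∃ rs : List R, RingTheory.Sequence.IsRegular R rs ∧ (rs.length : WithBot ℕ∞) = ringKrullDim R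

/-- A scheme is Cohen-Macaulay if all its local rings are. -/
def IsCohenMacaulay (X : Scheme.{0}) : Prop := ∀ x : X, IsCMLocalRing (X.presheaf.stalk x)

/-- The closed subscheme `i₀ : X₀ ⟶ Y` of `Y = (ℙ¹)⁴` *deforms to an irreducible variety*: there
are an irreducible base `C`, locally of finite type over `ℂ` (for instance an irreducible curve),
a closed subscheme `i : 𝒳 ⟶ Y × C`, flat over `C`, a point `c₀ ∈ C(ℂ)` whose fibre
`𝒳_{c₀} ⊆ Y` is `X₀`, and a non-empty open `U ⊆ C` such that the fibres `𝒳_c` over all the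
points `c ∈ U(ℂ)` are integral (reduced and irreducible). -/
def DeformsToIrreducible {X₀ : Scheme.{0}} (i₀ : X₀ ⟶ Y) : Prop :=
  ∃ (C : Scheme.{0}) (s : C ⟶ SC) (𝒳 : Scheme.{0}) (i : 𝒳 ⟶ pullback Ystr s)
    (c₀ : SC ⟶ C) (U : C.Opens),
    LocallyOfFiniteType s ∧ IrreducibleSpace C ∧ IsClosedImmersion i ∧
    Flat (i ≫ pullback.snd Ystr s) ∧ c₀ ≫ s = 𝟙 SC ∧
    (∃ e : pullback (i ≫ pullback.snd Ystr s) c₀ ≅ X₀,
      e.hom ≫ i₀ = pullback.fst (i ≫ pullback.snd Ystr s) c₀ ≫ i ≫ pullback.fst Ystr s) ∧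
    (U : Set C).Nonempty ∧
    ∀ c : SC ⟶ C, c ≫ s = 𝟙 SC → Set.range c ⊆ U →
      IsIntegral (pullback (i ≫ pullback.snd Ystr s) c)

end Pool.Agent.J4H14.SV
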