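import Mathlib

/-!
# Linear independence in flat algebras and dominance
-/

noncomputable section

namespace Pool.Agent.J4H14.SV

open Finset

/-- A matrix over a field with linearly independent rows has a right inverse. -/
lemma exists_right_inv {k : Type} [Field k] {l m : ℕ} (a : Fin l → Fin m → k)
    (ha : ∀ c : Fin l → k, (∀ j, ∑ i, c i * a i j = 0) → c = 0) :
    ∃ b : Fin m → Fin l → k, ∀ i i', ∑ j, a i j * b j i' = if i = i' then 1 else 0 := by
  classical
  let φ : (Fin l → k) →ₗ[k] (Fin m → k) :=
    { toFun := fun c j => ∑ i, c i * a i j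
      map_add' := by
        intro c d; ext j
        simp [add_mul, Finset.sum_add_distrib]
      map_smul' := by
        intro r c; ext j
        simp [Finset.mul_sum, mul_assoc] }
  have hφ : LinearMap.ker φ = ⊥ := by
    rw [LinearMap.ker_eq_bot']
    intro c hc
    exact ha c fun j => congrFun hc j
  obtain ⟨g, hg⟩ := LinearMap.exists_leftInverse_of_injective φ hφ
  refine ⟨fun j i' => g (Pi.single j 1) i', fun i i' => ?_⟩
  have h1 : g (φ (Pi.single i 1)) = Pi.single i 1 := by
    have := congrArg (fun f => f (Pi.single i 1)) hg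
    simpa using this
  have h2 : φ (Pi.single i 1) = ∑ j, a i j • (Pi.single j (1 : k)) := by
    ext j
    simp [φ, Pi.single_apply, Finset.sum_apply]
  rw [h2, map_sum] at h1
  have h3 := congrFun h1 i'
  simp only [map_smul, Finset.sum_apply, Pi.smul_apply, smul_eq_mul] at h3
  rw [h3, Pi.single_apply]
  by_cases h : i = i'
  · simp [h]
  · simp [h, Ne.symm h]

/-- Key lemma: let `B` be flat over the `ℂ`-algebra `A` whose nilradical is prime, and let elements
of `B` become linearly independent over `ℂ` in a field over a `ℂ`-point of `A`. Then the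
coefficients of every relation with coefficients in `A` are nilpotent. -/
theorem flat_key {A B K : Type} [CommRing A] [CommRing B] [Field K] [Algebra ℂ A] [Algebra A B]
    [Module.Flat A B] [Algebra ℂ K] (hN : (nilradical A).IsPrime) (π : A →ₐ[ℂ] ℂ) (χ : B →+* K)
    (hχ : ∀ a, χ (algebraMap A B a) = algebraMap ℂ K (π a)) {l : ℕ} (x : Fin l → B)
    (hx : LinearIndependent ℂ (χ ∘ x)) (f : Fin l → A) (hf : ∑ i, f i • x i = 0) (i : Fin l) :
    f i ∈ nilradical A := by
  classical
  obtain ⟨m, a, y, h1, h2⟩ :=
    Module.Flat.isTrivialRelation_of_sum_smul_eq_zero (R := A) (M := B) (f := f) (x := x) hf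
  have ha : ∀ c : Fin l → ℂ, (∀ j, ∑ i, c i * π (a i j) = 0) → c = 0 := by
    intro c hc
    rw [Fintype.linearIndependent_iff] at hx
    funext i
    refine hx c ?_ i
    have : ∀ i, (χ ∘ x) i = ∑ j, algebraMap ℂ K (π (a i j)) * χ (y j) := by
      intro i
      simp only [Function.comp_apply, h1 i, map_sum, Algebra.smul_def, map_mul, hχ]
    simp only [this, Algebra.smul_def, Finset.mul_sum, ← mul_assoc]
    rw [Finset.sum_comm]
    refine Finset.sum_eq_zero fun j _ => ?_
    rw [← Finset.sum_mul]
    simp only [← map_mul]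
    rw [← map_sum, hc j, map_zero, zero_mul]
  obtain ⟨b, hb⟩ := exists_right_inv (fun i j => π (a i j)) ha
  let M : Matrix (Fin l) (Fin l) A := Matrix.of fun i i' => ∑ j, a i j * algebraMap ℂ A (b j i')
  have hM : π M.det = 1 := by
    have : π M.det = (π.toRingHom.mapMatrix M).det := by
      rw [← RingHom.map_det]; rfl
    rw [this]
    have h3 : π.toRingHom.mapMatrix M = 1 := by
      ext i i'
      simp only [AlgHom.toRingHom_eq_coe, RingHom.mapMatrix_apply, Matrix.map_apply, M, map_sum,
        map_mul, RingHom.coe_coe, AlgHom.commutes, Algebra.algebraMap_self, RingHom.id_apply,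
        Matrix.of_apply]
      rw [hb i i', Matrix.one_apply]
    rw [h3, Matrix.det_one]
  have hfM : Matrix.vecMul f M = 0 := by
    ext i'
    simp only [Matrix.vecMul, dotProduct, M, Pi.zero_apply, Finset.mul_sum, ← mul_assoc,
      Matrix.of_apply]
    rw [Finset.sum_comm]
    refine Finset.sum_eq_zero fun j _ => ?_
    rw [← Finset.sum_mul, h2 j, zero_mul]
  have hd : f i * M.det = 0 := by
    have h4 : Matrix.vecMul (Matrix.vecMul f M) M.adjugate = 0 := by
      rw [hfM, Matrix.zero_vecMul]
    rw [Matrix.vecMul_vecMul, Matrix.mul_adjugate] at h4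
    have := congrFun h4 i
    simpa [Matrix.vecMul_smul, mul_comm] using this
  have hd' : f i * M.det ∈ nilradical A := by rw [hd]; exact zero_mem _
  rcases hN.mem_or_mem hd' with h | h
  · exact h
  · exfalso
    rw [mem_nilradical] at h
    have := h.map π
    rw [hM] at this
    exact one_ne_zero this.eq_zero

/-- Over a base `A` with prime nilradical, a polynomial algebra whose variables become
algebraically independent over `ℂ` in a field over some `ℂ`-point of `A`: every relation is
nilpotent. -/
theorem ker_le_nilradical {A B K : Type} [CommRing A] [CommRing B] [Field K] [Algebra ℂ A]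
    [Algebra A B] [Module.Flat A B] [Algebra ℂ K] (hN : (nilradical A).IsPrime) (π : A →ₐ[ℂ] ℂ)
    (χ : B →+* K) (hχ : ∀ a, χ (algebraMap A B a) = algebraMap ℂ K (π a)) {σ : Type}
    (b : σ → B) (hb : AlgebraicIndependent ℂ (χ ∘ b)) (F : MvPolynomial σ A)
    (hF : MvPolynomial.aeval b F = 0) : F ∈ nilradical (MvPolynomial σ A) := by
  classical
  have hmon : LinearIndependent ℂ (fun α : σ →₀ ℕ => χ (α.prod fun i k => b i ^ k)) := by
    have h1 : LinearIndependent ℂ (fun α : σ →₀ ℕ => (MvPolynomial.monomial α (1 : ℂ))) := by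
      have := (MvPolynomial.basisMonomials σ ℂ).linearIndependent
      simpa [MvPolynomial.coe_basisMonomials] using this
    have h2 := h1.map' (MvPolynomial.aeval (χ ∘ b)).toLinearMap
      (LinearMap.ker_eq_bot.2 (by exact hb))
    have h3 : (fun α : σ →₀ ℕ => χ (α.prod fun i k => b i ^ k)) =
        (MvPolynomial.aeval (χ ∘ b)).toLinearMap ∘
          fun α : σ →₀ ℕ => (MvPolynomial.monomial α (1 : ℂ)) := by
      funext α
      simp [MvPolynomial.aeval_monomial, Finsupp.prod, map_prod, map_pow]
    rw [h3]
    exact h2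
  have hcoef : ∀ α, F.coeff α ∈ nilradical A := by
    intro α
    by_cases hα : α ∈ F.support
    · let e := F.support.equivFin
      have hx : LinearIndependent ℂ (χ ∘ fun k : Fin F.support.card =>
          ((e.symm k : σ →₀ ℕ).prod fun i k => b i ^ k)) := by
        have := hmon.comp (fun k : Fin F.support.card => (e.symm k : σ →₀ ℕ))
          (Subtype.val_injective.comp e.symm.injective)
        exact this
      have hrel : ∑ k : Fin F.support.card, (F.coeff (e.symm k : σ →₀ ℕ)) •
          ((e.symm k : σ →₀ ℕ).prod fun i k => b i ^ k) = 0 := by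
        rw [← hF, MvPolynomial.aeval_def, MvPolynomial.eval₂_eq]
        rw [e.symm.sum_comp (fun d : F.support => (F.coeff (d : σ →₀ ℕ)) •
          ((d : σ →₀ ℕ).prod fun i k => b i ^ k))]
        rw [Finset.sum_coe_sort F.support (fun d : σ →₀ ℕ => (F.coeff d) •
          (d.prod fun i k => b i ^ k))]
        refine Finset.sum_congr rfl fun k _ => ?_
        rw [Algebra.smul_def, Finsupp.prod]
      have := flat_key hN π χ hχ _ hx _ hrel (e ⟨α, hα⟩)
      simpa using this
    · rw [MvPolynomial.notMem_support_iff.1 hα]
      exact zero_mem _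
  rw [mem_nilradical, MvPolynomial.isNilpotent_iff]
  exact fun α => mem_nilradical.1 (hcoef α)

end Pool.Agent.J4H14.SV
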