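import Mathlib

/-!
# The matroid argument
-/

namespace Pool.Agent.J4H14.SV

/-- In a field extension: if `a, b` are algebraically independent and `c, d` are, then `a, c` or
`a, d` are algebraically independent. -/
theorem exchange {k L : Type} [Field k] [Field L] [Algebra k L] {a b c d : L}
    (hab : AlgebraicIndependent k ![a, b]) (hcd : AlgebraicIndependent k ![c, d]) :
    AlgebraicIndependent k ![a, c] ∨ AlgebraicIndependent k ![a, d] := by
  classical
  have key : ∀ u v : L, AlgebraicIndependent k ![u, v] ↔
      (u ≠ v ∧ (AlgebraicIndependent.matroid k L).Indep {u, v}) := by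
    intro u v
    rw [AlgebraicIndependent.matroid_indep_iff]
    have hr : Set.range ![u, v] = {u, v} := by simp [Set.pair_comm]
    constructor
    · intro h
      have hne : u ≠ v := by
        intro e
        have := h.injective
        have := @this 0 1 (by simpa using e)
        exact absurd this (by decide)
      refine ⟨hne, ?_⟩
      exact h.to_subtype_range' hr
    · rintro ⟨hne, h⟩
      have hinj : Function.Injective ![u, v] := by
        intro i i' hi
        fin_cases i <;> fin_cases i' <;> simp_all
      rw [← hr] at h
      exact (algebraicIndependent_subtype_range hinj).1 h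
  obtain ⟨-, h1⟩ := (key a b).1 hab
  obtain ⟨hcd', h2⟩ := (key c d).1 hcd
  have h3 : (AlgebraicIndependent.matroid k L).Indep {a} := h1.subset (by simp)
  obtain ⟨e, he, hi⟩ := h3.augment h2 (by
    rw [Set.encard_singleton, Set.encard_pair hcd']
    norm_num)
  simp only [Set.mem_sdiff, Set.mem_insert_iff, Set.mem_singleton_iff] at he
  have hi' : (AlgebraicIndependent.matroid k L).Indep {a, e} := by
    rwa [Set.pair_comm] at hi
  rcases he with ⟨rfl | rfl, hne⟩
  · exact Or.inl ((key _ _).2 ⟨Ne.symm hne, hi'⟩)
  · exact Or.inr ((key _ _).2 ⟨Ne.symm hne, hi'⟩)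

end Pool.Agent.J4H14.SV
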