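import Pool.Agent.J4H14.SV.Stm
import Pool.Agent.J4H14.SV.Fl

/-!
# Dominance of a pair of coordinates spreads from one fibre of a flat proper family to all fibres
-/

open CategoryTheory Limits AlgebraicGeometry TopologicalSpace

noncomputable section

namespace Pool.Agent.J4H14.SV

/-- `ℂ[t₀, t₁]`. -/
abbrev R2 : Type := MvPolynomial (Fin 2) ℂ

/-- The affine plane. -/
abbrev A2 : Scheme.{0} := Spec (CommRingCat.of R2)

/-- The two coordinate maps of the affine plane. -/
def co (i : Fin 2) : A2 ⟶ A1 :=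
  Spec.map (CommRingCat.ofHom (Polynomial.aeval (R := ℂ) (MvPolynomial.X i : R2)).toRingHom)

abbrev A2str : A2 ⟶ SC := Spec.map (CommRingCat.ofHom (algebraMap ℂ R2))

lemma co_str (i : Fin 2) : co i ≫ A1str = A2str := by
  rw [co, A1str, ← Spec.map_comp]
  congr 1
  ext x
  simp

/-- The generic point of the affine plane. -/
def gen2 : A2 := (⟨⊥, Ideal.isPrime_bot⟩ : PrimeSpectrum R2)

variable {P : Scheme.{0}} {p : P ⟶ SC} (j : A1 ⟶ P) (hj : j ≫ p = A1str)

/-- The plane in `P × P`. -/
def J2 : A2 ⟶ pullback p p :=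
  pullback.lift (co 0 ≫ j) (co 1 ≫ j) (by simp only [Category.assoc, hj, co_str])

theorem nil_prime {C : Scheme.{0}} [IrreducibleSpace C] {V : C.Opens} (hV : IsAffineOpen V)
    (hne : (V : Set C).Nonempty) : (nilradical Γ(C, V)).IsPrime := by
  have h1 : IsIrreducible (Set.univ : Set (PrimeSpectrum Γ(C, V))) := by
    constructor
    · obtain ⟨x, hx⟩ := hne
      have : x ∈ Set.range hV.fromSpec := by rw [hV.range_fromSpec]; exact hx
      obtain ⟨y, -⟩ := this
      exact ⟨y, trivial⟩
    · have := (PreirreducibleSpace.isPreirreducible_univ (X := C)).preimage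
        hV.fromSpec.isOpenEmbedding
      rw [Set.preimage_univ] at this
      exact this
  rw [← PrimeSpectrum.zeroLocus_nilradical, PrimeSpectrum.isIrreducible_zeroLocus_iff] at h1
  rwa [nilradical, Ideal.radical_idem] at h1


section
variable {C X : Scheme.{0}} {s : C ⟶ SC} {f : X ⟶ C} {x y : X ⟶ P}
  (hx : x ≫ p = f ≫ s) (hy : y ≫ p = f ≫ s)

/-- The pair of coordinates and the base point: `X ⟶ (P × P) × C`. -/
def GG : X ⟶ pullback (pullback.fst p p ≫ p) s :=
  pullback.lift (pullback.lift x y (hx.trans hy.symm)) f (by rw [pullback.lift_fst_assoc, hx])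

lemma GG_snd : GG hx hy ≫ pullback.snd (pullback.fst p p ≫ p) s = f :=
  pullback.lift_snd _ _ _

lemma GG_fst : GG hx hy ≫ pullback.fst (pullback.fst p p ≫ p) s =
    pullback.lift x y (hx.trans hy.symm) :=
  pullback.lift_fst _ _ _

instance [IsSeparated p] [IsProper f] : IsProper (GG hx hy) := by
  have : IsProper (GG hx hy ≫ pullback.snd (pullback.fst p p ≫ p) s) := by
    rw [GG_snd]; infer_instance
  exact IsProper.of_comp _ (pullback.snd (pullback.fst p p ≫ p) s)

end

end Pool.Agent.J4H14.SV
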