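import Pool.Agent.J4H14.SV.Nd1

open CategoryTheory Limits AlgebraicGeometry TopologicalSpace

noncomputable section

namespace Pool.Agent.J4H14.SV

variable {P : Scheme.{0}} {p : P ⟶ SC} (j : A1 ⟶ P) (hj : j ≫ p = A1str)

lemma J2_str : J2 j hj ≫ pullback.fst p p ≫ p = A2str := by
  rw [J2, pullback.lift_fst_assoc, Category.assoc, hj, co_str]

/-- `(u, c)` for the plane. -/
def J2c {C : Scheme.{0}} {s : C ⟶ SC} (c : SC ⟶ C) (hc : c ≫ s = 𝟙 SC) :
    A2 ⟶ pullback (pullback.fst p p ≫ p) s :=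
  pullback.lift (J2 j hj) (A2str ≫ c) (by rw [J2_str, Category.assoc, hc, Category.comp_id])

theorem spread [IsSeparated p] [IsOpenImmersion j] {C X : Scheme.{0}} {s : C ⟶ SC} {f : X ⟶ C}
    [IsProper f] [Flat f] [IrreducibleSpace C] {x y : X ⟶ P}
    (hx : x ≫ p = f ≫ s) (hy : y ≫ p = f ≫ s)
    (c₀ : SC ⟶ C) (hc₀ : c₀ ≫ s = 𝟙 SC) {V : C.Opens} (hV : IsAffineOpen V)
    (hc₀V : Set.range c₀ ⊆ V) {K : Type} [Field K] [Algebra ℂ K] (a b : K)
    (hab : AlgebraicIndependent ℂ ![a, b]) (ω : Spec (CommRingCat.of K) ⟶ X)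
    (hω : ω ≫ f = Spec.map (CommRingCat.ofHom (algebraMap ℂ K)) ≫ c₀)
    (hωx : ω ≫ x = Spec.map (CommRingCat.ofHom (Polynomial.aeval (R := ℂ) a).toRingHom) ≫ j)
    (hωy : ω ≫ y = Spec.map (CommRingCat.ofHom (Polynomial.aeval (R := ℂ) b).toRingHom) ≫ j)
    (c : SC ⟶ C) (hc : c ≫ s = 𝟙 SC) (hcV : Set.range c ⊆ V) :
    ∃ z : X, GG hx hy z = J2c j hj c hc gen2 := by
  classical
  -- the point of `X` and an affine neighbourhood
  let pt : Spec (CommRingCat.of K) := (⟨⊥, Ideal.isPrime_bot⟩ : PrimeSpectrum K)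
  have hpt : ∀ q : Spec (CommRingCat.of K), q = pt := fun q => Subsingleton.elim (α := PrimeSpectrum K) q pt
  have hz : ω pt ∈ f ⁻¹ᵁ V ⊓ (x ⁻¹ᵁ j.opensRange ⊓ y ⁻¹ᵁ j.opensRange) := by
    refine ⟨?_, ?_, ?_⟩
    · change (ω ≫ f) pt ∈ V
      rw [hω]
      exact hc₀V ⟨_, rfl⟩
    · change (ω ≫ x) pt ∈ Set.range j
      rw [hωx]
      exact ⟨_, rfl⟩
    · change (ω ≫ y) pt ∈ Set.range j
      rw [hωy]
      exact ⟨_, rfl⟩
  obtain ⟨W, hW, hzW, hWO⟩ := exists_isAffineOpen_mem_and_subset hz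
  have hWf : W ≤ f ⁻¹ᵁ V := fun w hw => (hWO hw).1
  have hWx : Set.range (hW.fromSpec ≫ x) ⊆ Set.range j := by
    rintro _ ⟨q, rfl⟩
    have : hW.fromSpec q ∈ (W : Set X) := by
      rw [← hW.range_fromSpec]; exact ⟨q, rfl⟩
    exact (hWO this).2.1
  have hWy : Set.range (hW.fromSpec ≫ y) ⊆ Set.range j := by
    rintro _ ⟨q, rfl⟩
    have : hW.fromSpec q ∈ (W : Set X) := by
      rw [← hW.range_fromSpec]; exact ⟨q, rfl⟩
    exact (hWO this).2.2
  have hωW : Set.range ω ⊆ Set.range hW.fromSpec := by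
    rintro _ ⟨q, rfl⟩
    rw [hW.range_fromSpec, hpt q]
    exact hzW
  -- ring homomorphisms
  let α : CommRingCat.of ℂ ⟶ Γ(C, V) := Spec.preimage (hV.fromSpec ≫ s)
  let φ : Γ(C, V) ⟶ Γ(X, W) := f.appLE V W hWf
  let ux : CommRingCat.of (Polynomial ℂ) ⟶ Γ(X, W) :=
    Spec.preimage (IsOpenImmersion.lift j (hW.fromSpec ≫ x) hWx)
  let uy : CommRingCat.of (Polynomial ℂ) ⟶ Γ(X, W) :=
    Spec.preimage (IsOpenImmersion.lift j (hW.fromSpec ≫ y) hWy)
  let π₀ : Γ(C, V) ⟶ CommRingCat.of ℂ :=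
    Spec.preimage (IsOpenImmersion.lift hV.fromSpec c₀ (by rw [hV.range_fromSpec]; exact hc₀V))
  let π : Γ(C, V) ⟶ CommRingCat.of ℂ :=
    Spec.preimage (IsOpenImmersion.lift hV.fromSpec c (by rw [hV.range_fromSpec]; exact hcV))
  let χ : Γ(X, W) ⟶ CommRingCat.of K := Spec.preimage (IsOpenImmersion.lift hW.fromSpec ω hωW)
  have eα : Spec.map α = hV.fromSpec ≫ s := Spec.map_preimage _
  have eφ : Spec.map φ ≫ hV.fromSpec = hW.fromSpec ≫ f := IsAffineOpen.SpecMap_appLE_fromSpec ..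
  have eux : Spec.map ux ≫ j = hW.fromSpec ≫ x := by
    rw [Spec.map_preimage, IsOpenImmersion.lift_fac]
  have euy : Spec.map uy ≫ j = hW.fromSpec ≫ y := by
    rw [Spec.map_preimage, IsOpenImmersion.lift_fac]
  have eπ₀ : Spec.map π₀ ≫ hV.fromSpec = c₀ := by
    rw [Spec.map_preimage, IsOpenImmersion.lift_fac]
  have eπ : Spec.map π ≫ hV.fromSpec = c := by
    rw [Spec.map_preimage, IsOpenImmersion.lift_fac]
  have eχ : Spec.map χ ≫ hW.fromSpec = ω := by
    rw [Spec.map_preimage, IsOpenImmersion.lift_fac]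
  have h1 : α ≫ π₀ = 𝟙 _ := by
    apply Spec.map_injective
    rw [Spec.map_comp, eα, reassoc_of% eπ₀, hc₀, Spec.map_id]
  have h1' : α ≫ π = 𝟙 _ := by
    apply Spec.map_injective
    rw [Spec.map_comp, eα, reassoc_of% eπ, hc, Spec.map_id]
  have h2 : φ ≫ χ = π₀ ≫ CommRingCat.ofHom (algebraMap ℂ K) := by
    apply Spec.map_injective
    rw [← cancel_mono hV.fromSpec]
    rw [Spec.map_comp, Spec.map_comp, Category.assoc, Category.assoc, eφ, eπ₀, reassoc_of% eχ, hω]
  have h3 : ux ≫ χ = CommRingCat.ofHom (Polynomial.aeval (R := ℂ) a).toRingHom := by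
    apply Spec.map_injective
    rw [← cancel_mono j]
    rw [Spec.map_comp, Category.assoc, eux, reassoc_of% eχ, hωx]
  have h3' : uy ≫ χ = CommRingCat.ofHom (Polynomial.aeval (R := ℂ) b).toRingHom := by
    apply Spec.map_injective
    rw [← cancel_mono j]
    rw [Spec.map_comp, Category.assoc, euy, reassoc_of% eχ, hωy]
  have h4 : CommRingCat.ofHom (algebraMap ℂ (Polynomial ℂ)) ≫ ux = α ≫ φ := by
    apply Spec.map_injective
    rw [Spec.map_comp, Spec.map_comp, eα, reassoc_of% eφ, ← hx, ← reassoc_of% eux, hj]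
  have h4' : CommRingCat.ofHom (algebraMap ℂ (Polynomial ℂ)) ≫ uy = α ≫ φ := by
    apply Spec.map_injective
    rw [Spec.map_comp, Spec.map_comp, eα, reassoc_of% eφ, ← hy, ← reassoc_of% euy, hj]
  -- the polynomial algebra
  letI : Algebra ℂ Γ(C, V) := α.hom.toAlgebra
  letI : Algebra Γ(C, V) Γ(X, W) := φ.hom.toAlgebra
  haveI : Module.Flat Γ(C, V) Γ(X, W) := f.flat_appLE hV hW hWf
  let b' : Fin 2 → Γ(X, W) := ![ux.hom Polynomial.X, uy.hom Polynomial.X]
  have hNe : (V : Set C).Nonempty := ⟨_, hcV ⟨(⟨⊥, Ideal.isPrime_bot⟩ : PrimeSpectrum ℂ), rfl⟩⟩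
  let π₀' : Γ(C, V) →ₐ[ℂ] ℂ :=
    { π₀.hom with
      commutes' := fun r => by
        have := congrArg (fun g => g.hom r) h1
        exact this }
  have hχ : ∀ r, χ.hom (algebraMap Γ(C, V) Γ(X, W) r) = algebraMap ℂ K (π₀' r) := by
    intro r
    have := congrArg (fun g => g.hom r) h2
    exact this
  have hb : AlgebraicIndependent ℂ (χ.hom ∘ b') := by
    have : (χ.hom ∘ b' : Fin 2 → K) = ![a, b] := by
      funext i
      fin_cases i
      · have := congrArg (fun g => g.hom Polynomial.X) h3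
        simpa [b'] using this
      · have := congrArg (fun g => g.hom Polynomial.X) h3'
        simpa [b'] using this
    rw [this]
    exact hab
  let ψ : MvPolynomial (Fin 2) Γ(C, V) →+* Γ(X, W) :=
    (MvPolynomial.aeval (R := Γ(C, V)) b').toRingHom
  have hdense : DenseRange (PrimeSpectrum.comap ψ) := by
    rw [PrimeSpectrum.denseRange_comap_iff_ker_le_nilRadical]
    intro F hF
    exact ker_le_nilradical (nil_prime hV hNe) π₀' χ.hom hχ b' hb F hF
  -- the morphism from the affine plane over `V`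
  let θ : Fin 2 → (Polynomial ℂ →+* MvPolynomial (Fin 2) Γ(C, V)) := fun i =>
    Polynomial.eval₂RingHom ((MvPolynomial.C).comp α.hom) (MvPolynomial.X i)
  let Q : CommRingCat := CommRingCat.of (MvPolynomial (Fin 2) Γ(C, V))
  let cst : Γ(C, V) ⟶ Q := CommRingCat.ofHom (MvPolynomial.C)
  have hθ : ∀ i, CommRingCat.ofHom (algebraMap ℂ (Polynomial ℂ)) ≫
      (CommRingCat.ofHom (θ i) : CommRingCat.of (Polynomial ℂ) ⟶ Q) = α ≫ cst := by
    intro i
    ext r
    simp [θ, cst]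
  have hθs : ∀ i, (Spec.map (CommRingCat.ofHom (θ i) : CommRingCat.of (Polynomial ℂ) ⟶ Q) ≫ j) ≫ p
      = (Spec.map cst ≫ hV.fromSpec) ≫ s := by
    intro i
    rw [Category.assoc, Category.assoc, hj, ← eα, A1str, ← Spec.map_comp, ← Spec.map_comp, hθ]
  let κ : Spec Q ⟶ pullback (pullback.fst p p ≫ p) s :=
    pullback.lift (pullback.lift
      (Spec.map (CommRingCat.ofHom (θ 0) : CommRingCat.of (Polynomial ℂ) ⟶ Q) ≫ j)
      (Spec.map (CommRingCat.ofHom (θ 1) : CommRingCat.of (Polynomial ℂ) ⟶ Q) ≫ j)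
      ((hθs 0).trans (hθs 1).symm)) (Spec.map cst ≫ hV.fromSpec) (by
        rw [pullback.lift_fst_assoc, hθs])
  let ψ' : Q ⟶ Γ(X, W) := CommRingCat.ofHom ψ
  have hθψ : ∀ (i : Fin 2) (u : CommRingCat.of (Polynomial ℂ) ⟶ Γ(X, W)),
      CommRingCat.ofHom (algebraMap ℂ (Polynomial ℂ)) ≫ u = α ≫ φ →
      b' i = u.hom Polynomial.X →
      (CommRingCat.ofHom (θ i) : CommRingCat.of (Polynomial ℂ) ⟶ Q) ≫ ψ' = u := by
    intro i u hu hbi
    apply CommRingCat.hom_ext
    apply Polynomial.ringHom_ext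
    · intro r
      have hur := congrArg (fun g => g.hom r) hu
      have e1 : u.hom (Polynomial.C r) = φ.hom (α.hom r) := hur
      rw [e1]
      change MvPolynomial.aeval b' (Polynomial.eval₂ _ _ (Polynomial.C r)) = _
      rw [Polynomial.eval₂_C]
      change MvPolynomial.aeval b' (MvPolynomial.C (α.hom r)) = _
      rw [MvPolynomial.aeval_C]
      rfl
    · change MvPolynomial.aeval b' (Polynomial.eval₂ _ _ Polynomial.X) = _
      rw [Polynomial.eval₂_X, MvPolynomial.aeval_X, hbi]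
  have hcψ : cst ≫ ψ' = φ := by
    apply CommRingCat.hom_ext
    ext r
    change MvPolynomial.aeval b' (MvPolynomial.C r) = _
    rw [MvPolynomial.aeval_C]
    rfl
  have e5 : Spec.map ψ' ≫ κ = hW.fromSpec ≫ GG hx hy := by
    apply pullback.hom_ext
    · apply pullback.hom_ext
      · simp only [κ, GG, Category.assoc, pullback.lift_fst]
        rw [← Spec.map_comp_assoc, hθψ 0 ux h4 rfl, eux]
      · simp only [κ, GG, Category.assoc, pullback.lift_fst, pullback.lift_snd]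
        rw [← Spec.map_comp_assoc, hθψ 1 uy h4' rfl, euy]
    · simp only [κ, GG, Category.assoc, pullback.lift_snd]
      rw [← Spec.map_comp_assoc, hcψ, eφ]
  let μ : Q ⟶ CommRingCat.of R2 := CommRingCat.ofHom (MvPolynomial.map π.hom)
  have hθμ : ∀ i : Fin 2, (CommRingCat.ofHom (θ i) : CommRingCat.of (Polynomial ℂ) ⟶ Q) ≫ μ =
      CommRingCat.ofHom (Polynomial.aeval (R := ℂ) (MvPolynomial.X i : R2)).toRingHom := by
    intro i
    apply CommRingCat.hom_ext
    apply Polynomial.ringHom_ext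
    · intro r
      change MvPolynomial.map π.hom (Polynomial.eval₂ _ _ (Polynomial.C r)) =
        Polynomial.aeval _ (Polynomial.C r)
      rw [Polynomial.eval₂_C, Polynomial.aeval_C]
      change MvPolynomial.map π.hom (MvPolynomial.C (α.hom r)) = MvPolynomial.C r
      rw [MvPolynomial.map_C]
      congr 1
      exact congrArg (fun g => g.hom r) h1'
    · change MvPolynomial.map π.hom (Polynomial.eval₂ _ _ Polynomial.X) =
        Polynomial.aeval _ Polynomial.X
      rw [Polynomial.eval₂_X, Polynomial.aeval_X, MvPolynomial.map_X]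
  have hcμ : cst ≫ μ = π ≫ CommRingCat.ofHom (algebraMap ℂ R2) := by
    apply CommRingCat.hom_ext
    ext r
    change MvPolynomial.coeff _ (MvPolynomial.map π.hom (MvPolynomial.C r)) = _
    rw [MvPolynomial.map_C]
    rfl
  have e6 : Spec.map μ ≫ κ = J2c j hj c hc := by
    apply pullback.hom_ext
    · apply pullback.hom_ext
      · simp only [κ, J2c, J2, Category.assoc, pullback.lift_fst]
        rw [← Spec.map_comp_assoc, hθμ, co]
      · simp only [κ, J2c, J2, Category.assoc, pullback.lift_fst, pullback.lift_snd]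
        rw [← Spec.map_comp_assoc, hθμ, co]
    · simp only [κ, J2c, Category.assoc, pullback.lift_snd]
      rw [← Spec.map_comp_assoc, hcμ, Spec.map_comp, Category.assoc, eπ]
  -- conclusion
  have hclosed : IsClosed (κ ⁻¹' Set.range (GG hx hy)) :=
    (GG hx hy).isClosedMap.isClosed_range.preimage κ.continuous
  have hsub : Set.range (Spec.map ψ') ⊆ κ ⁻¹' Set.range (GG hx hy) := by
    rintro _ ⟨q, rfl⟩
    refine ⟨hW.fromSpec q, ?_⟩
    have := congrArg (fun g => g q) (congrArg (fun h => (fun q => h q)) e5)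
    exact this.symm
  have hdense' : closure (Set.range (Spec.map ψ')) = Set.univ := hdense.closure_range
  have huniv : κ ⁻¹' Set.range (GG hx hy) = Set.univ := by
    rw [← hclosed.closure_eq]
    exact Set.eq_univ_of_univ_subset (hdense' ▸ closure_mono hsub)
  have : Spec.map μ gen2 ∈ κ ⁻¹' Set.range (GG hx hy) := by rw [huniv]; trivial
  obtain ⟨z, hz⟩ := this
  refine ⟨z, ?_⟩
  rw [hz, ← e6]
  rfl

end Pool.Agent.J4H14.SV
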