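import Pool.Agent.J4H14.SV.Nd2

open CategoryTheory Limits AlgebraicGeometry TopologicalSpace TensorProduct

noncomputable section

namespace Pool.Agent.J4H14.SV

/-! ### the plane is the product of two lines -/

/-- `ℂ[X] ⊗ ℂ[X] ≅ ℂ[t₀, t₁]`. -/
def tensorPoly : Polynomial ℂ ⊗[ℂ] Polynomial ℂ ≃ₐ[ℂ] R2 :=
  AlgEquiv.ofAlgHom
    (Algebra.TensorProduct.productMap (Polynomial.aeval (MvPolynomial.X 0))
      (Polynomial.aeval (MvPolynomial.X 1)))
    (MvPolynomial.aeval ![Polynomial.X ⊗ₜ 1, 1 ⊗ₜ Polynomial.X])
    (by
      apply MvPolynomial.algHom_ext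
      intro i
      fin_cases i <;> simp)
    (by
      apply Algebra.TensorProduct.ext
      · apply Polynomial.algHom_ext
        simp
      · apply Polynomial.algHom_ext
        simp)

lemma co_eq (i : Fin 2) : co i = Spec.map (CommRingCat.ofHom
    (Polynomial.aeval (R := ℂ) (MvPolynomial.X i : R2)).toRingHom) := rfl

lemma co_lift : (pullback.lift (co 0) (co 1) (by rw [co_str, co_str]) : A2 ⟶ pullback A1str A1str)
    = Spec.map (CommRingCat.ofHom tensorPoly.toAlgHom.toRingHom) ≫
      (pullbackSpecIso ℂ (Polynomial ℂ) (Polynomial ℂ)).inv := by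
  apply pullback.hom_ext
  · rw [pullback.lift_fst, Category.assoc]
    rw [pullbackSpecIso_inv_fst, ← Spec.map_comp, co_eq]
    congr 1
    apply CommRingCat.hom_ext
    apply Polynomial.ringHom_ext
    · intro r
      simp [tensorPoly]
    · simp [tensorPoly]
  · rw [pullback.lift_snd, Category.assoc]
    rw [pullbackSpecIso_inv_snd, ← Spec.map_comp, co_eq]
    congr 1
    apply CommRingCat.hom_ext
    apply Polynomial.ringHom_ext
    · intro r
      simp [tensorPoly]
    · simp [tensorPoly]

instance : IsIso (pullback.lift (co 0) (co 1) (by rw [co_str, co_str]) :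
    A2 ⟶ pullback A1str A1str) := by
  rw [co_lift]
  have : IsIso (Spec.map (CommRingCat.ofHom tensorPoly.toAlgHom.toRingHom)) := by
    have : IsIso (CommRingCat.ofHom tensorPoly.toAlgHom.toRingHom) :=
      (tensorPoly.toRingEquiv.toCommRingCatIso).isIso_hom
    infer_instance
  infer_instance

variable {P : Scheme.{0}} {p : P ⟶ SC} (j : A1 ⟶ P) (hj : j ≫ p = A1str)

instance [IsOpenImmersion j] : IsOpenImmersion (J2 j hj) := by
  have h : J2 j hj = pullback.lift (co 0) (co 1) (by rw [co_str, co_str]) ≫
      pullback.map A1str A1str p p j j (𝟙 _) (by rw [hj, Category.comp_id])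
        (by rw [hj, Category.comp_id]) := by
    apply pullback.hom_ext
    · rw [J2, pullback.lift_fst, Category.assoc, pullback.map, pullback.lift_fst,
        pullback.lift_fst_assoc]
    · rw [J2, pullback.lift_snd, Category.assoc, pullback.map, pullback.lift_snd,
        pullback.lift_snd_assoc]
  rw [h]
  infer_instance

end Pool.Agent.J4H14.SV
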