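import Pool.Agent.J4H14.SV.Nd3
import Pool.Agent.J4H14.SV.Mat

open CategoryTheory Limits AlgebraicGeometry TopologicalSpace

noncomputable section

namespace Pool.Agent.J4H14.SV

variable {P : Scheme.{0}} {p : P ⟶ SC} (j : A1 ⟶ P) (hj : j ≫ p = A1str)

/-- The point `1` of the affine line. -/
def one1 : A1 := Spec.map (CommRingCat.ofHom (Polynomial.evalRingHom (1 : ℂ)))
  (⟨⊥, Ideal.isPrime_bot⟩ : PrimeSpectrum ℂ)

/-- The point `(1, 1)` of the affine plane. -/
def one2 : A2 := Spec.map (CommRingCat.ofHom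
    (MvPolynomial.aeval (R := ℂ) (fun _ : Fin 2 => (1 : ℂ))).toRingHom)
  (⟨⊥, Ideal.isPrime_bot⟩ : PrimeSpectrum ℂ)

lemma co_one2 (i : Fin 2) : co i one2 = one1 := by
  have : Spec.map (CommRingCat.ofHom
    (MvPolynomial.aeval (R := ℂ) (fun _ : Fin 2 => (1 : ℂ))).toRingHom) ≫ co i =
      Spec.map (CommRingCat.ofHom (Polynomial.evalRingHom (1 : ℂ))) := by
    rw [co_eq, ← Spec.map_comp]
    congr 1
    apply CommRingCat.hom_ext
    apply Polynomial.ringHom_ext
    · intro r
      simp
    · simp
  rw [one2, one1, ← this]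
  rfl

lemma J2_fst (z : A2) : pullback.fst p p (J2 j hj z) = j (co 0 z) := by
  have : J2 j hj ≫ pullback.fst p p = co 0 ≫ j := pullback.lift_fst _ _ _
  have h2 := congrArg (fun g : A2 ⟶ P => g z) this
  exact h2

lemma J2_snd (z : A2) : pullback.snd p p (J2 j hj z) = j (co 1 z) := by
  have : J2 j hj ≫ pullback.snd p p = co 1 ≫ j := pullback.lift_snd _ _ _
  have h2 := congrArg (fun g : A2 ⟶ P => g z) this
  exact h2

lemma gen2_specializes (q : A2) : gen2 ⤳ q := by
  have h : (⊥ : Ideal R2) ≤ (show PrimeSpectrum R2 from q).asIdeal := bot_le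
  exact (PrimeSpectrum.le_iff_specializes (R := R2) gen2 q).1 h

/-- a generization of the generic point of the plane is that point -/
lemma eq_of_specializes [IsOpenImmersion j] {T : Scheme.{0}} (g : T ⟶ pullback p p) {ξ z : T}
    (hξ : ξ ⤳ z) (hz : g z = J2 j hj gen2) : g ξ = J2 j hj gen2 := by
  have h1 : g ξ ⤳ J2 j hj gen2 := hz ▸ hξ.map g.continuous
  have h2 : g ξ ∈ Set.range (J2 j hj) :=
    h1.mem_open (J2 j hj).isOpenEmbedding.isOpen_range ⟨_, rfl⟩
  obtain ⟨q, hq⟩ := h2
  rw [← hq] at h1 ⊢
  have h3 : q ⤳ gen2 := (J2 j hj).isOpenEmbedding.isInducing.specializes_iff.1 h1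
  have h4 : (show PrimeSpectrum R2 from q).asIdeal ≤ ⊥ :=
    (PrimeSpectrum.le_iff_specializes (R := R2) q gen2).2 h3
  have h5 : q = gen2 := PrimeSpectrum.ext (R := R2) (le_bot_iff.1 h4)
  rw [h5]

section
variable [IsSeparated p] [IsOpenImmersion j] {Z : Scheme.{0}} {h : Z ⟶ SC}
  {x y : Z ⟶ P} (hx : x ≫ p = h) (hy : y ≫ p = h)

/-- A dominant pair takes the value `(1, 1)`. -/
lemma takes_one [IsProper h] {ξ : Z}
    (hξ : pullback.lift x y (hx.trans hy.symm) ξ = J2 j hj gen2) :
    ∃ z, x z = j one1 ∧ y z = j one1 := by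
  set g := pullback.lift x y (hx.trans hy.symm) with hg
  have hgh : g ≫ pullback.fst p p ≫ p = h := by
    rw [hg, pullback.lift_fst_assoc, hx]
  have : IsProper (g ≫ pullback.fst p p ≫ p) := by rw [hgh]; infer_instance
  have : IsProper g := IsProper.of_comp _ (pullback.fst p p ≫ p)
  have hcl : IsClosed (Set.range g) := g.isClosedMap.isClosed_range
  have h1 : J2 j hj one2 ∈ Set.range g := by
    have h2 : J2 j hj gen2 ⤳ J2 j hj one2 := (gen2_specializes one2).map (J2 j hj).continuous
    exact h2.mem_closed hcl ⟨ξ, hξ⟩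
  obtain ⟨z, hz⟩ := h1
  refine ⟨z, ?_, ?_⟩
  · have h3 : pullback.fst p p (g z) = x z := by
      have : g ≫ pullback.fst p p = x := pullback.lift_fst _ _ _
      exact congrArg (fun g : Z ⟶ P => g z) this
    rw [← h3, hz, J2_fst, co_one2]
  · have h3 : pullback.snd p p (g z) = y z := by
      have : g ≫ pullback.snd p p = y := pullback.lift_snd _ _ _
      exact congrArg (fun g : Z ⟶ P => g z) this
    rw [← h3, hz, J2_snd, co_one2]

end

/-- Restriction to the generic point: a morphism from the spectrum of a field factors through the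
chart `j` if its image point is in the chart. -/
lemma factor_field [IsOpenImmersion j] {L : CommRingCat.{0}} (ε : Spec L ⟶ P)
    (hε : Set.range ε ⊆ Set.range j) :
    ∃ v : CommRingCat.of (Polynomial ℂ) ⟶ L, Spec.map v ≫ j = ε :=
  ⟨Spec.preimage (IsOpenImmersion.lift j ε hε), by
    rw [Spec.map_preimage, IsOpenImmersion.lift_fac]⟩

theorem no_variety [IsProper p] [IsOpenImmersion j] {Z : Scheme.{0}} [IrreducibleSpace Z]
    (h : Z ⟶ SC) [IsProper h] (x : Fin 4 → (Z ⟶ P)) (hx : ∀ i, x i ≫ p = h)
    (h01 : ∃ z, pullback.lift (x 0) (x 1) ((hx 0).trans (hx 1).symm) z = J2 j hj gen2)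
    (h23 : ∃ z, pullback.lift (x 2) (x 3) ((hx 2).trans (hx 3).symm) z = J2 j hj gen2)
    (h02 : ¬ ∃ z, x 0 z = j one1 ∧ x 2 z = j one1)
    (h03 : ¬ ∃ z, x 0 z = j one1 ∧ x 3 z = j one1) : False := by
  classical
  set ξ := genericPoint Z with hξdef
  have hξ : ∀ z : Z, ξ ⤳ z := fun z => genericPoint_specializes z
  -- the residue field at the generic point
  let L : CommRingCat := Z.residueField ξ
  letI : Field L := inferInstanceAs (Field (Z.residueField ξ))
  let ε : Spec L ⟶ Z := Z.fromSpecResidueField ξ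
  let pt : Spec L := (⟨⊥, Ideal.isPrime_bot⟩ : PrimeSpectrum L)
  have hε : ∀ q : Spec L, ε q = ξ := fun q => Z.fromSpecResidueField_apply ξ q
  obtain ⟨z01, hz01⟩ := h01
  obtain ⟨z23, hz23⟩ := h23
  have e01 := eq_of_specializes j hj _ (hξ z01) hz01
  have e23 := eq_of_specializes j hj _ (hξ z23) hz23
  have hr : ∀ i, x i ξ ∈ Set.range j := by
    have f01 : ∀ i k : Fin 4, pullback.lift (x i) (x k) ((hx i).trans (hx k).symm) ξ =
        J2 j hj gen2 → x i ξ ∈ Set.range j ∧ x k ξ ∈ Set.range j := by
      intro i k hik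
      constructor
      · have h3 : pullback.fst p p (pullback.lift (x i) (x k) ((hx i).trans (hx k).symm) ξ)
            = x i ξ := by
          have : pullback.lift (x i) (x k) ((hx i).trans (hx k).symm) ≫ pullback.fst p p = x i :=
            pullback.lift_fst _ _ _
          exact congrArg (fun g : Z ⟶ P => g ξ) this
        rw [← h3, hik, J2_fst]
        exact ⟨_, rfl⟩
      · have h3 : pullback.snd p p (pullback.lift (x i) (x k) ((hx i).trans (hx k).symm) ξ)
            = x k ξ := by
          have : pullback.lift (x i) (x k) ((hx i).trans (hx k).symm) ≫ pullback.snd p p = x k :=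
            pullback.lift_snd _ _ _
          exact congrArg (fun g : Z ⟶ P => g ξ) this
        rw [← h3, hik, J2_snd]
        exact ⟨_, rfl⟩
    intro i
    fin_cases i
    · exact (f01 0 1 e01).1
    · exact (f01 0 1 e01).2
    · exact (f01 2 3 e23).1
    · exact (f01 2 3 e23).2
  have hv : ∀ i, ∃ v : CommRingCat.of (Polynomial ℂ) ⟶ L, Spec.map v ≫ j = ε ≫ x i := by
    intro i
    apply factor_field
    rintro _ ⟨q, rfl⟩
    have : (ε ≫ x i) q = x i ξ := by
      change x i (ε q) = _
      rw [hε]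
    rw [this]
    exact hr i
  choose v hv using hv
  let γ : CommRingCat.of ℂ ⟶ L := Spec.preimage (ε ≫ h)
  have eγ : Spec.map γ = ε ≫ h := Spec.map_preimage _
  have hvγ : ∀ i, CommRingCat.ofHom (algebraMap ℂ (Polynomial ℂ)) ≫ v i = γ := by
    intro i
    apply Spec.map_injective
    rw [Spec.map_comp, eγ, ← hx i, ← reassoc_of% hv i, hj]
  letI : Algebra ℂ L := γ.hom.toAlgebra
  let a : Fin 4 → L := fun i => (v i).hom Polynomial.X
  have hvC : ∀ i r, (v i).hom (Polynomial.C r) = algebraMap ℂ L r := by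
    intro i r
    exact congrArg (fun g => g.hom r) (hvγ i)
  -- algebraic independence and dominance
  have key : ∀ i k : Fin 4, pullback.lift (x i) (x k) ((hx i).trans (hx k).symm) ξ =
      J2 j hj gen2 ↔ AlgebraicIndependent ℂ ![a i, a k] := by
    intro i k
    let ν : CommRingCat.of R2 ⟶ L :=
      CommRingCat.ofHom (MvPolynomial.aeval (R := ℂ) ![a i, a k]).toRingHom
    have hco : ∀ (m : Fin 2) (l : Fin 4), ![a i, a k] m = a l → 
        CommRingCat.ofHom (Polynomial.aeval (R := ℂ) (MvPolynomial.X m : R2)).toRingHom ≫ ν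
          = v l := by
      intro m l hml
      apply CommRingCat.hom_ext
      apply Polynomial.ringHom_ext
      · intro r
        rw [hvC]
        change MvPolynomial.aeval _ (Polynomial.aeval _ (Polynomial.C r)) = _
        rw [Polynomial.aeval_C, MvPolynomial.algebraMap_eq, MvPolynomial.aeval_C]
      · change MvPolynomial.aeval _ (Polynomial.aeval _ Polynomial.X) = a l
        rw [Polynomial.aeval_X, MvPolynomial.aeval_X, hml]
    have hν : Spec.map ν ≫ J2 j hj =
        ε ≫ pullback.lift (x i) (x k) ((hx i).trans (hx k).symm) := by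
      apply pullback.hom_ext
      · rw [Category.assoc, Category.assoc, J2, pullback.lift_fst, pullback.lift_fst, co_eq,
          ← Spec.map_comp_assoc, hco 0 i rfl, hv]
      · rw [Category.assoc, Category.assoc, J2, pullback.lift_snd, pullback.lift_snd, co_eq,
          ← Spec.map_comp_assoc, hco 1 k rfl, hv]
    have hval : pullback.lift (x i) (x k) ((hx i).trans (hx k).symm) ξ =
        J2 j hj (Spec.map ν pt) := by
      have := congrArg (fun g : Spec L ⟶ pullback p p => g pt) hν
      have h2 : J2 j hj (Spec.map ν pt) = 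
          pullback.lift (x i) (x k) ((hx i).trans (hx k).symm) (ε pt) := this
      rw [h2, hε]
    rw [hval, (J2 j hj).isOpenEmbedding.injective.eq_iff]
    have hker : Spec.map ν pt = gen2 ↔ RingHom.ker ν.hom = ⊥ := by
      constructor
      · intro e
        have := congrArg (fun q : PrimeSpectrum R2 => q.asIdeal) e
        exact this
      · intro e
        apply PrimeSpectrum.ext (R := R2)
        exact e
    rw [hker, ← RingHom.injective_iff_ker_eq_bot]
    rfl
  rcases exchange ((key 0 1).1 e01) ((key 2 3).1 e23) with h' | h'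
  · exact h02 (takes_one j hj (hx 0) (hx 2) ((key 0 2).2 h'))
  · exact h03 (takes_one j hj (hx 0) (hx 3) ((key 0 3).2 h'))

end Pool.Agent.J4H14.SV
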