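import Pool.Agent.J4H14.SV.Nd4

/-!
# The special fibre and the non-deformability of `X_S`
-/

open CategoryTheory Limits AlgebraicGeometry TopologicalSpace

noncomputable section

namespace Pool.Agent.J4H14.SV

lemma pr_str (k : Fin 4) : pr k ≫ P1str = Ystr := by
  fin_cases k
  · simp [pr, Ystr, PPstr]
  · simp [pr, Ystr, PPstr, pullback.condition]
  · have : (pullback.snd PPstr PPstr ≫ pullback.fst P1str P1str) ≫ P1str =
        pullback.snd PPstr PPstr ≫ PPstr := by simp [PPstr]
    exact this.trans pullback.condition.symm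
  · have : (pullback.snd PPstr PPstr ≫ pullback.snd P1str P1str) ≫ P1str =
        pullback.snd PPstr PPstr ≫ PPstr := by
      rw [Category.assoc, ← pullback.condition, PPstr]
    exact this.trans pullback.condition.symm

/-- The morphism to `Y` with given coordinates. -/
def toY {T : Scheme.{0}} (t : T ⟶ SC) (x : Fin 4 → (T ⟶ P1)) (hx : ∀ k, x k ≫ P1str = t) :
    T ⟶ Y :=
  pullback.lift
    (pullback.lift (x 0) (x 1) ((hx 0).trans (hx 1).symm) : T ⟶ PP)
    (pullback.lift (x 2) (x 3) ((hx 2).trans (hx 3).symm) : T ⟶ PP)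
    (by rw [PPstr, pullback.lift_fst_assoc, pullback.lift_fst_assoc, hx, hx])

lemma toY_pr {T : Scheme.{0}} (t : T ⟶ SC) (x : Fin 4 → (T ⟶ P1)) (hx : ∀ k, x k ≫ P1str = t)
    (k : Fin 4) : toY t x hx ≫ pr k = x k := by
  fin_cases k
  · change toY t x hx ≫ pullback.fst PPstr PPstr ≫ pullback.fst P1str P1str = x 0
    rw [toY, pullback.lift_fst_assoc, pullback.lift_fst]
  · change toY t x hx ≫ pullback.fst PPstr PPstr ≫ pullback.snd P1str P1str = x 1
    rw [toY, pullback.lift_fst_assoc, pullback.lift_snd]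
  · change toY t x hx ≫ pullback.snd PPstr PPstr ≫ pullback.fst P1str P1str = x 2
    rw [toY, pullback.lift_snd_assoc, pullback.lift_fst]
  · change toY t x hx ≫ pullback.snd PPstr PPstr ≫ pullback.snd P1str P1str = x 3
    rw [toY, pullback.lift_snd_assoc, pullback.lift_snd]

lemma range_XSι (S : Finset (Finset (Fin 4))) : Set.range (XSι S) = unionSet S := by
  rw [XSι, Scheme.IdealSheafData.range_subschemeι]
  rfl

instance (S : Finset (Finset (Fin 4))) : IsClosedImmersion (XSι S) := by
  rw [XSι]; infer_instance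

/-- A morphism from a reduced scheme to `Y` with image in `⋃ X_F` factors through `X_S`. -/
lemma factor_XS (S : Finset (Finset (Fin 4))) {T : Scheme.{0}} [IsReduced T] (g : T ⟶ Y)
    (hg : Set.range g ⊆ unionSet S) : ∃ g' : T ⟶ XS S, g' ≫ XSι S = g := by
  have h1 : Surjective (pullback.snd (XSι S) g) := by
    constructor
    intro t
    have : g t ∈ Set.range (XSι S) := by rw [range_XSι]; exact hg ⟨t, rfl⟩
    obtain ⟨u, hu⟩ := this
    obtain ⟨w, -, hw⟩ := Scheme.Pullback.exists_preimage_pullback u t hu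
    exact ⟨w, hw⟩
  have h2 : IsIso (pullback.snd (XSι S) g) := isIso_of_isClosedImmersion_of_surjective _
  refine ⟨inv (pullback.snd (XSι S) g) ≫ pullback.fst (XSι S) g, ?_⟩
  rw [Category.assoc, pullback.condition, IsIso.inv_hom_id_assoc]

end Pool.Agent.J4H14.SV
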