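import Pool.Agent.J4H14.SV.Nd5

/-!
# Non-deformability
-/

open CategoryTheory Limits AlgebraicGeometry TopologicalSpace

noncomputable section

namespace Pool.Agent.J4H14.SV

/-- The point `0` of the affine line. -/
def zeroMap : SC ⟶ A1 := Spec.map (CommRingCat.ofHom (Polynomial.evalRingHom (0 : ℂ)))

lemma zeroMap_str : zeroMap ≫ A1str = 𝟙 SC := by
  rw [zeroMap, A1str, ← Spec.map_comp, ← Spec.map_id]
  congr 1
  ext x
  simp

def oneMap : SC ⟶ A1 := Spec.map (CommRingCat.ofHom (Polynomial.evalRingHom (1 : ℂ)))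

lemma oneMap_str : oneMap ≫ A1str = 𝟙 SC := by
  rw [oneMap, A1str, ← Spec.map_comp, ← Spec.map_id]
  congr 1
  ext x
  simp

/-- The data of the standard chart of `ℙ¹` used in the proof. -/
structure Chart where
  j : A1 ⟶ P1
  oi : IsOpenImmersion j
  str : j ≫ P1str = A1str
  base : ∀ q : A1, j q ∈ baseLocus ↔
    Polynomial.X ∈ (show PrimeSpectrum (Polynomial ℂ) from q).asIdeal

attribute [instance] Chart.oi

variable (ch : Chart)

lemma zero_base (t : SC) : (zeroMap ≫ ch.j) t ∈ baseLocus := by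
  have : (zeroMap ≫ ch.j) t = ch.j (zeroMap t) := rfl
  rw [this, ch.base]
  change Polynomial.evalRingHom (0 : ℂ) Polynomial.X ∈ (show PrimeSpectrum ℂ from t).asIdeal
  simp

lemma one_not_base : ch.j one1 ∉ baseLocus := by
  rw [ch.base]
  intro h
  have : Polynomial.evalRingHom (1 : ℂ) Polynomial.X ∈ (⊥ : Ideal ℂ) := h
  simp at this

lemma isClosed_one : IsClosed {ch.j one1} := by
  have h1 : (oneMap ≫ ch.j) ≫ P1str = 𝟙 SC := by rw [Category.assoc, ch.str, oneMap_str]
  have : Subsingleton SC := inferInstanceAs (Subsingleton (PrimeSpectrum ℂ))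
  have h2 := isClosedImmersion_of_comp_eq_id _ _ h1
  have h3 := (oneMap ≫ ch.j).isClosedEmbedding.isClosed_range
  convert h3 using 1
  ext z
  constructor
  · rintro rfl
    exact ⟨_, rfl⟩
  · rintro ⟨q, rfl⟩
    have : q = (⟨⊥, Ideal.isPrime_bot⟩ : PrimeSpectrum ℂ) := Subsingleton.elim _ _
    rw [this]
    rfl

/-- The test family: coordinates `a`, `b` at two places, the base point elsewhere. -/
def testX (m n : Fin 4) : Fin 4 → (A2 ⟶ P1) := fun k =>
  if k = m then co 0 ≫ ch.j else if k = n then co 1 ≫ ch.j else A2str ≫ zeroMap ≫ ch.j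

lemma testX_str (m n k : Fin 4) : testX ch m n k ≫ P1str = A2str := by
  rw [testX]
  split_ifs
  · rw [Category.assoc, ch.str, co_str]
  · rw [Category.assoc, ch.str, co_str]
  · rw [Category.assoc, Category.assoc, ch.str, zeroMap_str, Category.comp_id]

lemma testX_mem {S : Finset (Finset (Fin 4))} {F : Finset (Fin 4)} (hF : F ∈ S) {m n : Fin 4}
    (hm : m ∈ F) (hn : n ∈ F) :
    Set.range (toY A2str (testX ch m n) (testX_str ch m n)) ⊆ unionSet S := by
  rintro _ ⟨q, rfl⟩
  refine ⟨F, hF, fun k hk => ?_⟩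
  have h1 : pr k (toY A2str (testX ch m n) (testX_str ch m n) q) = testX ch m n k q := by
    have := toY_pr A2str (testX ch m n) (testX_str ch m n) k
    exact congrArg (fun g : A2 ⟶ P1 => g q) this
  have hkm : ¬ k = m := by rintro rfl; exact hk hm
  have hkn : ¬ k = n := by rintro rfl; exact hk hn
  rw [h1, testX, if_neg hkm, if_neg hkn]
  exact zero_base ch _

lemma J2c_fst {P : Scheme.{0}} {p : P ⟶ SC} (j : A1 ⟶ P) (hj : j ≫ p = A1str)
    {C : Scheme.{0}} {s : C ⟶ SC} (c : SC ⟶ C) (hc : c ≫ s = 𝟙 SC) :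
    J2c j hj c hc ≫ pullback.fst (pullback.fst p p ≫ p) s = J2 j hj :=
  pullback.lift_fst _ _ _

lemma J2c_snd {P : Scheme.{0}} {p : P ⟶ SC} (j : A1 ⟶ P) (hj : j ≫ p = A1str)
    {C : Scheme.{0}} {s : C ⟶ SC} (c : SC ⟶ C) (hc : c ≫ s = 𝟙 SC) :
    J2c j hj c hc ≫ pullback.snd (pullback.fst p p ≫ p) s = A2str ≫ c :=
  pullback.lift_snd _ _ _

include ch in
/-- Non-deformability, for the product of four projective lines. -/
theorem not_deforms [IsProper P1str] (S : Finset (Finset (Fin 4)))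
    (h01 : ∃ F ∈ S, (0 : Fin 4) ∈ F ∧ (1 : Fin 4) ∈ F)
    (h23 : ∃ F ∈ S, (2 : Fin 4) ∈ F ∧ (3 : Fin 4) ∈ F)
    (h02 : ∀ F ∈ S, ¬ ((0 : Fin 4) ∈ F ∧ (2 : Fin 4) ∈ F))
    (h03 : ∀ F ∈ S, ¬ ((0 : Fin 4) ∈ F ∧ (3 : Fin 4) ∈ F)) :
    ¬ DeformsToIrreducible (XSι S) := by
  classical
  rintro ⟨C, s, 𝒳, i, c₀, U, hs, hC, hi, hflat, hc₀, ⟨e, he⟩, hU, hint⟩
  set f : 𝒳 ⟶ C := i ≫ pullback.snd Ystr s with hf
  set g : 𝒳 ⟶ Y := i ≫ pullback.fst Ystr s with hg
  have hfg : g ≫ Ystr = f ≫ s := by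
    rw [hg, hf, Category.assoc, Category.assoc, pullback.condition]
  have : IsProper f := by rw [hf]; infer_instance
  let x : Fin 4 → (𝒳 ⟶ P1) := fun k => g ≫ pr k
  have hx : ∀ k, x k ≫ P1str = f ≫ s := by
    intro k
    rw [Category.assoc, pr_str, hfg]
  -- points of the special fibre
  let pt : SC := (⟨⊥, Ideal.isPrime_bot⟩ : PrimeSpectrum ℂ)
  have hpt : ∀ q : SC, q = pt := fun q => Subsingleton.elim (α := PrimeSpectrum ℂ) q pt
  have hfib : ∀ z : 𝒳, f z = c₀ pt → g z ∈ unionSet S := by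
    intro z hz
    obtain ⟨w, hw, -⟩ := Scheme.Pullback.exists_preimage_pullback (f := f) (g := c₀) z pt hz
    have h1 : XSι S (e.hom w) = g z := by
      have := congrArg (fun h : pullback f c₀ ⟶ Y => h w) he
      rw [← hw]
      exact this
    rw [← h1, ← range_XSι]
    exact ⟨_, rfl⟩
  -- closed bad sets
  have hbad : ∀ k : Fin 4, (∀ F ∈ S, ¬ ((0 : Fin 4) ∈ F ∧ k ∈ F)) →
      ∃ N : Set C, IsClosed N ∧ c₀ pt ∉ N ∧
        ∀ z : 𝒳, x 0 z = ch.j one1 → x k z = ch.j one1 → f z ∈ N := by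
    intro k hk
    refine ⟨f '' ((x 0) ⁻¹' {ch.j one1} ∩ (x k) ⁻¹' {ch.j one1}), ?_, ?_, ?_⟩
    · exact f.isClosedMap _ (((isClosed_one ch).preimage (x 0).continuous).inter
        ((isClosed_one ch).preimage (x k).continuous))
    · rintro ⟨z, ⟨hz0, hzk⟩, hz⟩
      obtain ⟨F, hF, hFz⟩ := hfib z hz
      by_cases h0 : (0 : Fin 4) ∈ F
      · have h1 : k ∉ F := fun h => hk F hF ⟨h0, h⟩
        have h2 : pr k (g z) ∈ baseLocus := hFz k h1
        have h3 : pr k (g z) = ch.j one1 := hzk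
        rw [h3] at h2
        exact one_not_base ch h2
      · have h2 : pr 0 (g z) ∈ baseLocus := hFz 0 h0
        have h3 : pr 0 (g z) = ch.j one1 := hz0
        rw [h3] at h2
        exact one_not_base ch h2
    · intro z h0 hk
      exact ⟨z, ⟨h0, hk⟩, rfl⟩
  obtain ⟨N2, hN2c, hN2, hN2'⟩ := hbad 2 h02
  obtain ⟨N3, hN3c, hN3, hN3'⟩ := hbad 3 h03
  -- an affine neighbourhood of the special point
  obtain ⟨V, hV, hV0, -⟩ := exists_isAffineOpen_mem_and_subset (U := (⊤ : C.Opens))
    (x := c₀ pt) trivial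
  -- a good closed point
  have hJ : JacobsonSpace C := LocallyOfFiniteType.jacobsonSpace s
  have hgood : ((U : Set C) ∩ ((V : Set C) ∩ (N2ᶜ ∩ N3ᶜ))).Nonempty := by
    apply nonempty_preirreducible_inter U.isOpen
      (V.isOpen.inter (hN2c.isOpen_compl.inter hN3c.isOpen_compl)) hU
    exact ⟨c₀ pt, hV0, hN2, hN3⟩
  have hgo : IsOpen ((U : Set C) ∩ ((V : Set C) ∩ (N2ᶜ ∩ N3ᶜ))) :=
    U.isOpen.inter (V.isOpen.inter (hN2c.isOpen_compl.inter hN3c.isOpen_compl))
  obtain ⟨c', ⟨hc'U, hc'V, hc'2, hc'3⟩, hc'cl⟩ :=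
    nonempty_inter_closedPoints hgood hgo.isLocallyClosed
  let c : SC ⟶ C := pointOfClosedPoint s c' hc'cl
  have hcs : c ≫ s = 𝟙 SC := pointOfClosedPoint_comp s c' hc'cl
  have hcr : ∀ q, c q = c' := fun q => pointOfClosedPoint_apply s c' hc'cl q
  have hZ : IsIntegral (pullback f c) := by
    apply hint c hcs
    rintro _ ⟨q, rfl⟩
    rw [hcr]
    exact hc'U
  -- the fibre
  let h : pullback f c ⟶ SC := pullback.snd f c
  have : IsProper h := by infer_instance
  let xZ : Fin 4 → (pullback f c ⟶ P1) := fun k => pullback.fst f c ≫ x k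
  have hxZ : ∀ k, xZ k ≫ P1str = h := by
    intro k
    rw [Category.assoc, hx, pullback.condition_assoc, hcs, Category.comp_id]
  -- dominant pairs
  have hdom : ∀ m n : Fin 4, m ≠ n → (∃ F ∈ S, m ∈ F ∧ n ∈ F) →
      ∃ z, pullback.lift (xZ m) (xZ n) ((hxZ m).trans (hxZ n).symm) z = J2 ch.j ch.str gen2 := by
    rintro m n hmn ⟨F, hF, hm, hn⟩
    obtain ⟨y', hy'⟩ := factor_XS S (toY A2str (testX ch m n) (testX_str ch m n))
      (testX_mem ch hF hm hn)
    let ω : A2 ⟶ 𝒳 := y' ≫ e.inv ≫ pullback.fst f c₀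
    have hωg : ω ≫ g = toY A2str (testX ch m n) (testX_str ch m n) := by
      have : pullback.fst f c₀ ≫ g = e.hom ≫ XSι S := he.symm
      rw [Category.assoc, Category.assoc, this, Iso.inv_hom_id_assoc, hy']
    have hωf : ω ≫ f = A2str ≫ c₀ := by
      have h1 : ω ≫ f = (y' ≫ e.inv ≫ pullback.snd f c₀) ≫ c₀ := by
        simp only [ω, Category.assoc, pullback.condition]
      have h2 : y' ≫ e.inv ≫ pullback.snd f c₀ = A2str := by
        have h3 : (y' ≫ e.inv ≫ pullback.snd f c₀) = (ω ≫ f) ≫ s := by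
          rw [h1, Category.assoc, hc₀, Category.comp_id]
        rw [h3, Category.assoc, ← hfg, ← Category.assoc, hωg, ← pr_str 0, ← Category.assoc,
          toY_pr, testX_str]
      rw [h1, h2]
    let K : Type := FractionRing R2
    let r : CommRingCat.of R2 ⟶ CommRingCat.of K := CommRingCat.ofHom (algebraMap R2 K)
    have hab : AlgebraicIndependent ℂ ![algebraMap R2 K (MvPolynomial.X 0),
        algebraMap R2 K (MvPolynomial.X 1)] := by
      have h1 : AlgebraicIndependent ℂ (MvPolynomial.X : Fin 2 → R2) :=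
        MvPolynomial.algebraicIndependent_X _ _
      have h2 := h1.map' (f := IsScalarTower.toAlgHom ℂ R2 K) (IsFractionRing.injective R2 K)
      convert h2 using 1
      funext l
      fin_cases l <;> rfl
    have hr : ∀ l : Fin 2, Spec.map r ≫ co l = Spec.map (CommRingCat.ofHom
        (Polynomial.aeval (R := ℂ) (algebraMap R2 K (MvPolynomial.X l))).toRingHom) := by
      intro l
      rw [co_eq, ← Spec.map_comp]
      congr 1
      apply CommRingCat.hom_ext
      apply Polynomial.ringHom_ext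
      · intro t
        simp [r, IsScalarTower.algebraMap_apply ℂ R2 K]
      · simp [r]
    obtain ⟨z, hz⟩ := spread ch.j ch.str (hx m) (hx n) c₀ hc₀ hV
      (by rintro _ ⟨q, rfl⟩; rw [hpt q]; exact hV0) _ _ hab (Spec.map r ≫ ω)
      (by
        rw [Category.assoc, hωf, ← Category.assoc, ← Spec.map_comp]
        congr 2)
      (by
        have : ω ≫ x m = co 0 ≫ ch.j := by
          rw [← Category.assoc, hωg, toY_pr, testX, if_pos rfl]
        rw [Category.assoc, this, ← Category.assoc, hr])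
      (by
        have : ω ≫ x n = co 1 ≫ ch.j := by
          rw [← Category.assoc, hωg, toY_pr, testX, if_neg (Ne.symm hmn), if_pos rfl]
        rw [Category.assoc, this, ← Category.assoc, hr])
      c hcs (by rintro _ ⟨q, rfl⟩; rw [hcr]; exact hc'V)
    obtain ⟨w, hw1, hw2⟩ := Scheme.Pullback.exists_preimage_pullback
      (f := GG (hx m) (hx n)) (g := J2c ch.j ch.str c hcs) z gen2 hz
    let μ : pullback (GG (hx m) (hx n)) (J2c ch.j ch.str c hcs) ⟶ pullback f c :=
      pullback.lift (pullback.fst _ _) (pullback.snd _ _ ≫ A2str) (by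
        have := pullback.condition (f := GG (hx m) (hx n)) (g := J2c ch.j ch.str c hcs)
        have h2 := congrArg (fun t => t ≫ pullback.snd (pullback.fst P1str P1str ≫ P1str) s) this
        simp only [Category.assoc] at h2 ⊢
        rw [GG_snd, J2c_snd] at h2
        exact h2)
    refine ⟨μ w, ?_⟩
    have h5 : μ ≫ pullback.lift (xZ m) (xZ n) ((hxZ m).trans (hxZ n).symm) =
        pullback.snd _ _ ≫ J2 ch.j ch.str := by
      have := pullback.condition (f := GG (hx m) (hx n)) (g := J2c ch.j ch.str c hcs)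
      have h2 := congrArg (fun t => t ≫ pullback.fst (pullback.fst P1str P1str ≫ P1str) s) this
      simp only [Category.assoc] at h2
      rw [GG_fst, J2c_fst] at h2
      rw [← h2]
      have hμ : μ ≫ pullback.fst f c = pullback.fst _ _ := pullback.lift_fst _ _ _
      apply pullback.hom_ext
      · simp only [Category.assoc, pullback.lift_fst]
        exact (Category.assoc _ _ _).symm.trans (congrArg (fun t => t ≫ x m) hμ)
      · simp only [Category.assoc, pullback.lift_snd]
        exact (Category.assoc _ _ _).symm.trans (congrArg (fun t => t ≫ x n) hμ)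
    have h6 := congrArg (fun t : pullback (GG (hx m) (hx n)) (J2c ch.j ch.str c hcs) ⟶
      pullback P1str P1str => t w) h5
    have h7 : pullback.lift (xZ m) (xZ n) ((hxZ m).trans (hxZ n).symm) (μ w) =
        J2 ch.j ch.str (pullback.snd (GG (hx m) (hx n)) (J2c ch.j ch.str c hcs) w) := h6
    rw [h7, hw2]
  -- non dominant pairs
  have hnd : ∀ (k : Fin 4) (N : Set C), c' ∉ N →
      (∀ z : 𝒳, x 0 z = ch.j one1 → x k z = ch.j one1 → f z ∈ N) →
      ¬ ∃ z, xZ 0 z = ch.j one1 ∧ xZ k z = ch.j one1 := by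
    rintro k N hcN hN ⟨z, hz0, hzk⟩
    apply hcN
    have h1 := hN (pullback.fst f c z) hz0 hzk
    have h2 : f (pullback.fst f c z) = c (pullback.snd f c z) := by
      have := congrArg (fun t : pullback f c ⟶ C => t z) (pullback.condition (f := f) (g := c))
      exact this
    rw [h2, hcr] at h1
    exact h1
  exact no_variety ch.j ch.str h xZ hxZ (hdom 0 1 (by decide) h01) (hdom 2 3 (by decide) h23)
    (hnd 2 N2 hc'2 hN2') (hnd 3 N3 hc'3 hN3')

end Pool.Agent.J4H14.SV
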