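import Pool.Agent.J4H14.SV.Defs

/-!
# Jobs of project SV (MP_c10209_ag, Q2: full negative answer)

`X_S`, `S = {01, 12, 23}`, in `(ℙ¹)⁴` is Cohen-Macaulay but does not deform to an irreducible
variety. Two independent jobs: `S_P1` (the two standard charts of `ℙ¹`) and `S_CMALG`
(Cohen-Macaulayness of seven small Stanley-Reisner rings, pure commutative algebra).
-/

open CategoryTheory Limits AlgebraicGeometry TopologicalSpace

noncomputable section

namespace Pool.Agent.J4H14.SV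

/-- The affine line over `ℂ`. -/
abbrev A1 : Scheme.{0} := Spec (CommRingCat.of (Polynomial ℂ))

/-- Its structure morphism. -/
abbrev A1str : A1 ⟶ SC := Spec.map (CommRingCat.ofHom (algebraMap ℂ (Polynomial ℂ)))

/-- JOB P1. `ℙ¹` is proper over `ℂ` and has the two standard charts `j₀` (the chart `D₊(X₁)` with
coordinate `X₀/X₁`, containing the base point `o = V₊(X₀)`) and `j₁` (the chart `D₊(X₀)`).

Proof. Properness: `Mathlib.AlgebraicGeometry.ProjectiveSpectrum.Proper` (instance for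
`Proj.toSpecZero`, needs `Algebra.FiniteType (HS 0) (MvPolynomial (Fin 2) ℂ)`), composed with the
isomorphism `Spec (HS 0) ≅ Spec ℂ` (`algebraMap ℂ (HS 0)` is bijective).
Charts: `Proj.awayι HS (X i)` (open immersion, range `Proj.basicOpen`, `awayι_toSpecZero`) composed
with `Spec` of a ring isomorphism `HomogeneousLocalization.Away HS (X i) ≃+* ℂ[X]` over `ℂ`, for
`i = 1`: `X₀/X₁ ↦ X`. -/
def S_P1 : Prop :=
  IsProper P1str ∧ ∃ j₀ j₁ : A1 ⟶ P1, IsOpenImmersion j₀ ∧ IsOpenImmersion j₁ ∧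
    j₀ ≫ P1str = A1str ∧ j₁ ≫ P1str = A1str ∧ Set.range j₀ ∪ Set.range j₁ = Set.univ ∧
    (∀ q : A1, j₀ q ∈ baseLocus ↔ Polynomial.X ∈ (show PrimeSpectrum (Polynomial ℂ) from q).asIdeal)
      ∧ ∀ q : A1, j₁ q ∉ baseLocus

/-- `ℂ[t₀, t₁, t₂, t₃]`. -/
abbrev D4 : Type := MvPolynomial (Fin 4) ℂ

/-- The ideal `(t_i : i ∉ F)` of the coordinate subspace `F`. -/
def pI (F : Finset (Fin 4)) : Ideal D4 :=
  Ideal.span (MvPolynomial.X '' {i | i ∉ F})

/-- `S = {01, 12, 23}`. -/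
def S3 : Finset (Finset (Fin 4)) := {{0, 1}, {1, 2}, {2, 3}}

/-- The ideal of the union of the coordinate planes `F ∈ S` containing `T`. -/
def JT (T : Finset (Fin 4)) : Ideal D4 := ⨅ F ∈ S3.filter (T ⊆ ·), pI F

/-- JOB CMALG. All local rings of `ℂ[t]/J_T` are Cohen-Macaulay, for every `T ⊆ {0,1,2,3}`.

Proof. (1) The collections `{F ∈ S3 : T ⊆ F}` are `{01,12,23}` (`T = ∅`), `{01}`, `{01,12}`,
`{12}`, `{12,23}`, `{23}` and `∅` (then `J_T = ⊤` and there is nothing to prove).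
(2) Let `R = ℂ[θ₀, θ₁]` (`MvPolynomial (Fin 2) ℂ`) act on `D = ℂ[t]` by `θ₀ ↦ t₁ + t₂`,
`θ₁ ↦ t₀ + t₁ + t₃`. For `F = 01, 12, 23` the composition `R → D → D/pI F` is bijective (it is a
linear change of coordinates: `(t₁, t₀+t₁)`, `(t₁+t₂, t₁)`, `(t₂, t₃)`), so `D/pI F` is free of
rank one over `R`. (3) If `I`, `𝔭` are ideals of `D` such that `D/I` and `D/𝔭` are finite and
projective over `R`, `𝔭` is prime and the image of `I` in `D/𝔭` is `(a)` with `a ≠ 0`, then
`D/(I ⊓ 𝔭)` is finite projective: `0 → I/(I ⊓ 𝔭) → D/(I ⊓ 𝔭) → D/I → 0` is exact and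
`I/(I ⊓ 𝔭) ≅ (I + 𝔭)/𝔭 = (a) ≅ D/𝔭`; here `I = pI 01`, `𝔭 = pI 12`, `a = t₂`;
`I = pI 12` or `pI 01 ⊓ pI 12 = (t₃, t₀ t₂)`, `𝔭 = pI 23`, `a = t₃`.
(4) General lemma: `B` an `R`-algebra, finite and flat as a module, `q` a prime of `B` =>
`IsCMLocalRing (Localization.AtPrime q)`: let `p = q ∩ R`. `p` is generated by a weakly regular
sequence `rs` of `R` of length `n ≤ 2`: `p = 0`, or `p = (f)`, `f` prime, or `p` is maximal and
`p = (θ₀ - a, θ₁ - b)` (Nullstellensatz; a prime strictly bigger than `(f)` is maximal because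
`ringKrullDim R = 2`). `R → B → B_q` is flat, so the image of `rs` is weakly regular in `B_q`
(`Mathlib.RingTheory.Regular.Flat`), and regular as it lies in the maximal ideal;
`dim B_q ≥ n` (regular sequence: `ringKrullDim_quotient_succ_le_of_nonZeroDivisor`) and
`dim B_q = height q ≤ n` by Krull (`q` is minimal over `pB`, by incomparability in the integral
extension `R → B`). -/
def S_CMALG : Prop :=
  ∀ (T : Finset (Fin 4)) (q : Ideal (D4 ⧸ JT T)) [q.IsPrime],
    IsCMLocalRing (Localization.AtPrime q)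

end Pool.Agent.J4H14.SV
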